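import Mathlib
import Pool.Agent.H40.AlgGroup

/-!
# Centralizers in unitary groups of finite nil rings with involution
-/

set_option autoImplicit false

open Finset

namespace Pool.Agent.H40U

open Pool.Agent.H40.AlgGroup

section ring

variable {A : Type*} [Ring A]

/-- `y + y ^ 2 + ⋯ + y ^ M`. -/
def gs (M : ℕ) (y : A) : A := ∑ k ∈ range M, y ^ (k + 1)

lemma one_add_gs (M : ℕ) (y : A) : 1 + gs M y = ∑ k ∈ range (M + 1), y ^ k := by
  rw [sum_range_succ', pow_zero, add_comm]; rfl

lemma mul_gs {M : ℕ} {y : A} (h : y ^ M = 0) : (1 - y) * (1 + gs M y) = 1 := by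
  rw [one_add_gs, mul_neg_geom_sum, pow_succ, h, zero_mul, sub_zero]

lemma gs_mul {M : ℕ} {y : A} (h : y ^ M = 0) : (1 + gs M y) * (1 - y) = 1 := by
  rw [one_add_gs, geom_sum_mul_neg, pow_succ, h, zero_mul, sub_zero]

lemma pow_mem {J : NonUnitalSubring A} {y : A} (hy : y ∈ J) (k : ℕ) : y ^ (k + 1) ∈ J := by
  induction k with
  | zero => rwa [zero_add, pow_one]
  | succ k ih => rw [pow_succ]; exact J.mul_mem ih hy

lemma gs_mem {J : NonUnitalSubring A} {y : A} (hy : y ∈ J) (M : ℕ) : gs M y ∈ J :=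
  sum_mem fun k _ => pow_mem hy k

lemma gs_commute {M : ℕ} {y z : A} (h : Commute y z) : Commute (gs M y) (gs M z) :=
  Commute.sum_left _ _ _ fun _ _ => Commute.sum_right _ _ _ fun _ _ => h.pow_pow _ _

/-- The Cayley transform. -/
def cay (M : ℕ) (y : A) : A := 1 + (gs M y + gs M y)

lemma cay_commute {M : ℕ} {y z : A} (h : Commute y z) : Commute (cay M y) (cay M z) := by
  have h1 := gs_commute (M := M) h
  unfold cay
  exact (Commute.one_left _).add_left
    (((Commute.one_right _).add_right (h1.add_right h1)).add_left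
      ((Commute.one_right _).add_right (h1.add_right h1)))

lemma sub_mul_cay {M : ℕ} {y : A} (h : y ^ M = 0) : (1 - y) * cay M y = 1 + y := by
  have h1 := mul_gs h
  have h2 : (1 - y) * gs M y = y := by
    have : (1 - y) * gs M y = (1 - y) * (1 + gs M y) - (1 - y) := by rw [mul_add, mul_one]; abel
    rw [this, h1]; abel
  unfold cay
  rw [← add_assoc, mul_add, h1, h2]

variable {J : NonUnitalSubring A}

lemma odd_nsmul [Finite J] {k : ℕ} (hodd : Nat.card J = 2 * k + 1) {x : A} (hx : x ∈ J) :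
    k • (x + x) + x = 0 := by
  have h1 : Nat.card J • (⟨x, hx⟩ : J) = 0 := card_nsmul_eq_zero'
  have h2 := congrArg (fun z : J => (z : A)) h1
  have h3 : Nat.card J • x = 0 := h2
  rw [hodd, add_smul, one_smul, mul_smul, two_smul] at h3
  rw [smul_add]
  exact h3

lemma tors [Finite J] (hodd : Odd (Nat.card J)) {x : A} (hx : x ∈ J) (h : x + x = 0) : x = 0 := by
  obtain ⟨k, hk⟩ := hodd
  have := odd_nsmul hk hx
  rwa [h, smul_zero, zero_add] at this

lemma half [Finite J] (hodd : Odd (Nat.card J)) {x : A} (hx : x ∈ J) :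
    ∃ y ∈ J, y + y = x := by
  obtain ⟨k, hk⟩ := hodd
  have h1 := odd_nsmul hk hx
  refine ⟨(k + 1) • x, J.toAddSubgroup.nsmul_mem hx _, ?_⟩
  rw [smul_add] at h1
  rw [add_smul, one_smul]
  calc k • x + x + (k • x + x) = (k • x + k • x + x) + x := by abel
    _ = x := by rw [h1, zero_add]

lemma exists_bound [Finite J] (hnil : ∀ x ∈ J, IsNilpotent x) : ∃ M, ∀ x ∈ J, x ^ M = 0 := by
  classical
  have : Fintype J := Fintype.ofFinite J
  choose e he using fun x : J => hnil x.1 x.2
  refine ⟨∑ x : J, e x, fun x hx => ?_⟩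
  have h1 : e ⟨x, hx⟩ ≤ ∑ x : J, e x := single_le_sum (fun _ _ => Nat.zero_le _) (mem_univ _)
  exact pow_eq_zero_of_le h1 (he ⟨x, hx⟩)

variable [StarRing A]

/-- The skew elements of `J`. -/
def skew (J : NonUnitalSubring A) : Submodule ℤ A where
  carrier := {y | y ∈ J ∧ star y = -y}
  add_mem' := by
    rintro a b ⟨ha, ha'⟩ ⟨hb, hb'⟩
    exact ⟨J.add_mem ha hb, by rw [star_add, ha', hb', neg_add]⟩
  zero_mem' := ⟨J.zero_mem, by simp⟩
  smul_mem' := by
    rintro c a ⟨ha, ha'⟩
    refine ⟨J.toAddSubgroup.zsmul_mem ha c, ?_⟩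
    rw [star_zsmul, ha', smul_neg]

lemma mem_skew {y : A} : y ∈ skew J ↔ y ∈ J ∧ star y = -y := Iff.rfl

lemma star_gs (M : ℕ) (y : A) : star (gs M y) = gs M (star y) := by
  unfold gs
  rw [star_sum]
  exact sum_congr rfl fun k _ => star_pow _ _

lemma star_cay (M : ℕ) (y : A) : star (cay M y) = cay M (star y) := by
  unfold cay
  rw [star_add, star_add, star_one, star_gs]

/-- The unitary elements of `1 + J`. -/
def unit (J : NonUnitalSubring A) : Set A := {u | u - 1 ∈ J ∧ u * star u = 1 ∧ star u * u = 1}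

lemma cay_mem {M : ℕ} (hM : ∀ x ∈ J, x ^ M = 0) {y : A} (hy : y ∈ skew J) :
    cay M y ∈ unit J := by
  obtain ⟨hyJ, hys⟩ := hy
  have hyn : -y ∈ J := J.neg_mem hyJ
  refine ⟨?_, ?_, ?_⟩
  · unfold cay
    rw [add_sub_cancel_left]
    exact J.add_mem (gs_mem hyJ M) (gs_mem hyJ M)
  · rw [star_cay, hys]
    have h1 := sub_mul_cay (hM y hyJ)
    have h2 := sub_mul_cay (hM (-y) hyn)
    rw [sub_neg_eq_add, ← sub_eq_add_neg] at h2
    have h3 : (1 - y) * (cay M y * cay M (-y)) = 1 - y := by rw [← mul_assoc, h1, h2]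
    calc cay M y * cay M (-y) = ((1 + gs M y) * (1 - y)) * (cay M y * cay M (-y)) := by
          rw [gs_mul (hM y hyJ), one_mul]
      _ = (1 + gs M y) * (1 - y) := by rw [mul_assoc, h3]
      _ = 1 := gs_mul (hM y hyJ)
  · rw [star_cay, hys]
    have h1 := sub_mul_cay (hM y hyJ)
    have h2 := sub_mul_cay (hM (-y) hyn)
    rw [sub_neg_eq_add, ← sub_eq_add_neg] at h2
    have h3 : (1 + y) * (cay M (-y) * cay M y) = 1 + y := by rw [← mul_assoc, h2, h1]
    have h4 := gs_mul (hM (-y) hyn)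
    rw [sub_neg_eq_add] at h4
    calc cay M (-y) * cay M y = ((1 + gs M (-y)) * (1 + y)) * (cay M (-y) * cay M y) := by
          rw [h4, one_mul]
      _ = (1 + gs M (-y)) * (1 + y) := by rw [mul_assoc, h3]
      _ = 1 := h4

omit [StarRing A] in
lemma cay_inj [Finite J] (hodd : Odd (Nat.card J)) {M : ℕ} (hM : ∀ x ∈ J, x ^ M = 0) {y z : A}
    (hy : y ∈ J) (hz : z ∈ J) (h : cay M y = cay M z) : y = z := by
  have h1 := sub_mul_cay (hM y hy)
  have h2 := sub_mul_cay (hM z hz)
  rw [← h] at h2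
  have h3 : (y - z) * (cay M y + 1) = 0 := by
    have e1 : y * (cay M y + 1) = cay M y - 1 := by
      have : y * (cay M y + 1) = cay M y - (1 - y) * cay M y + y := by
        rw [sub_mul, one_mul, mul_add, mul_one]; abel
      rw [this, h1]; abel
    have e2 : z * (cay M y + 1) = cay M y - 1 := by
      have : z * (cay M y + 1) = cay M y - (1 - z) * cay M y + z := by
        rw [sub_mul, one_mul, mul_add, mul_one]; abel
      rw [this, h2]; abel
    rw [sub_mul, e1, e2, sub_self]
  have h4 : (y - z) * (cay M y + 1) * (1 - y) = (y - z) + (y - z) := by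
    have e3 : cay M y + 1 = (1 + gs M y) + (1 + gs M y) := by unfold cay; abel
    rw [e3, mul_assoc, add_mul, gs_mul (hM y hy), mul_add, mul_one]
  rw [h3, zero_mul] at h4
  exact sub_eq_zero.1 (tors hodd (J.sub_mem hy hz) h4.symm)

lemma cay_surj [Finite J] (hodd : Odd (Nat.card J)) {M : ℕ} (hM : ∀ x ∈ J, x ^ M = 0)
    (hst : ∀ x ∈ J, star x ∈ J) {u : A} (hu : u ∈ unit J) : ∃ y ∈ skew J, cay M y = u := by
  obtain ⟨hu1, hu2, hu3⟩ := hu
  obtain ⟨g, hg, hgg⟩ := half hodd hu1
  have hgn : -g ∈ J := J.neg_mem hg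
  have a1 := mul_gs (hM (-g) hgn)
  have a2 := gs_mul (hM (-g) hgn)
  rw [sub_neg_eq_add] at a1 a2
  set g' := gs M (-g) with hg'
  have hg'J : g' ∈ J := gs_mem hgn M
  set y := g * (1 + g') with hy
  have hyJ : y ∈ J := by
    rw [hy, mul_add, mul_one]
    exact J.add_mem hg (J.mul_mem hg hg'J)
  have hyg : y * (1 + g) = g := by rw [hy, mul_assoc, a2, mul_one]
  have hu' : u = 1 + (g + g) := by rw [hgg]; abel
  refine ⟨y, ⟨hyJ, ?_⟩, ?_⟩
  · -- `g + g* + 2 g* g = 0`
    have b1 : (g + star g + (star g * g + star g * g)) +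
        (g + star g + (star g * g + star g * g)) = 0 := by
      have b2 : star u * u = 1 := hu3
      rw [hu', star_add, star_add, star_one] at b2
      have b3 : (1 + (star g + star g)) * (1 + (g + g)) - 1 = 0 := by rw [b2, sub_self]
      rw [← b3]
      noncomm_ring
    have b4 : g + star g + (star g * g + star g * g) = 0 := by
      refine tors hodd ?_ b1
      exact J.add_mem (J.add_mem hg (hst g hg))
        (J.add_mem (J.mul_mem (hst g hg) hg) (J.mul_mem (hst g hg) hg))
    have b5 : (1 + star g) * star y = star g := by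
      have := congrArg star hyg
      rwa [star_mul, star_add, star_one] at this
    have b6 : (1 + star g) * (-y) = star g := by
      have b7 : (1 + star g) * (-y) * (1 + g) = star g * (1 + g) := by
        rw [mul_assoc, neg_mul, hyg]
        have : star g * (1 + g) - (1 + star g) * -g = g + star g + (star g * g + star g * g) := by
          noncomm_ring
        rw [b4] at this
        exact (sub_eq_zero.1 this).symm
      calc (1 + star g) * (-y) = (1 + star g) * (-y) * (1 + g) * (1 + g') := by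
            rw [mul_assoc ((1 + star g) * (-y)), a1, mul_one]
        _ = star g * (1 + g) * (1 + g') := by rw [b7]
        _ = star g := by rw [mul_assoc, a1, mul_one]
    -- cancel
    have c1 : (1 + star g') * (1 + star g) = 1 := by
      have := congrArg star a1
      rwa [star_mul, star_add, star_add, star_one] at this
    calc star y = (1 + star g') * (1 + star g) * star y := by rw [c1, one_mul]
      _ = (1 + star g') * (1 + star g) * (-y) := by rw [mul_assoc, b5, mul_assoc, b6]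
      _ = -y := by rw [c1, one_mul]
  · have d1 : (1 - y) * (1 + g) = 1 := by rw [sub_mul, one_mul, hyg]; abel
    have d2 : 1 + gs M y = 1 + g := by
      calc 1 + gs M y = (1 + gs M y) * ((1 - y) * (1 + g)) := by rw [d1, mul_one]
        _ = 1 + g := by rw [← mul_assoc, gs_mul (hM y hyJ), one_mul]
    have d3 : gs M y = g := add_left_cancel d2
    unfold cay
    rw [d3, hu']

/-- The skew elements that commute with `y`. -/
def CK (J : NonUnitalSubring A) (y : A) : Submodule ℤ A :=
  skew J ⊓ LinearMap.ker (LinearMap.mulLeft ℤ y - LinearMap.mulRight ℤ y)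

lemma mem_CK {y z : A} : z ∈ CK J y ↔ z ∈ skew J ∧ y * z = z * y := by
  rw [CK, Submodule.mem_inf, LinearMap.mem_ker, LinearMap.sub_apply, LinearMap.mulLeft_apply,
    LinearMap.mulRight_apply, sub_eq_zero]

lemma ad_mem {y : A} (hy : y ∈ skew J) :
    ∀ z ∈ skew J, (LinearMap.mulLeft ℤ y - LinearMap.mulRight ℤ y) z ∈ skew J := by
  rintro z ⟨hz, hz'⟩
  obtain ⟨hyJ, hy'⟩ := hy
  rw [LinearMap.sub_apply, LinearMap.mulLeft_apply, LinearMap.mulRight_apply]
  refine ⟨J.sub_mem (J.mul_mem hyJ hz) (J.mul_mem hz hyJ), ?_⟩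
  rw [star_sub, star_mul, star_mul, hz', hy']
  noncomm_ring

lemma sq_mem {y : A} (hy : y ∈ skew J) :
    ∀ z ∈ CK J y, LinearMap.mulLeft ℤ (y * y) z ∈ CK J y := by
  intro z hz
  obtain ⟨⟨hz, hz'⟩, hc⟩ := mem_CK.1 hz
  obtain ⟨hyJ, hy'⟩ := hy
  rw [LinearMap.mulLeft_apply]
  refine mem_CK.2 ⟨⟨J.mul_mem (J.mul_mem hyJ hyJ) hz, ?_⟩, ?_⟩
  · rw [star_mul, star_mul, hz', hy']
    calc -z * (-y * -y) = -((z * y) * y) := by noncomm_ring
      _ = -(y * y * z) := by rw [← hc, mul_assoc, ← hc, ← mul_assoc]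
  · calc y * (y * y * z) = (y * y) * (y * z) := by noncomm_ring
      _ = y * y * z * y := by rw [hc]; noncomm_ring

/-- The size of the centralizer. -/
lemma CK_card [Finite J] {M : ℕ} (hM : ∀ x ∈ J, x ^ M = 0) {y : A} (hy : y ∈ skew J) {p n : ℕ}
    (hp : p.Prime) (hK : Nat.card (skew J) = p ^ n) :
    ∃ s, Nat.card (CK J y) = p ^ s ∧ n ≤ s * (4 * s + 1) := by
  have hfK : Finite (skew J) := by
    refine Finite.of_injective (fun z : skew J => (⟨z.1, z.2.1⟩ : J)) ?_
    intro a b hab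
    exact Subtype.ext (congrArg (fun z : J => (z : A)) hab)
  have hle : CK J y ≤ skew J := inf_le_left
  have hfC : Finite (CK J y) := by
    refine Finite.of_injective (fun z : CK J y => (⟨z.1, hle z.2⟩ : skew J)) ?_
    intro a b hab
    exact Subtype.ext (congrArg (fun z : skew J => (z : A)) hab)
  obtain ⟨s, _, hs⟩ := (Nat.dvd_prime_pow hp).1
    (hK ▸ AddSubgroup.card_dvd_of_le (H := (CK J y).toAddSubgroup)
      (K := (skew J).toAddSubgroup) hle : Nat.card (CK J y) ∣ p ^ n)
  refine ⟨s, hs, ?_⟩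
  set φ : Module.End ℤ (CK J y) := (LinearMap.mulLeft ℤ (y * y)).restrict (sq_mem hy) with hφ
  have hpow : ∀ k (z : CK J y), (((φ ^ k) z : CK J y) : A) = (y * y) ^ k * (z : A) := by
    intro k
    induction k with
    | zero => intro z; simp
    | succ k ih =>
      intro z
      rw [pow_succ', Module.End.mul_apply, hφ, LinearMap.coe_restrict_apply, ← hφ, ih,
        LinearMap.mulLeft_apply, pow_succ' (y * y) k, mul_assoc (y * y) ((y * y) ^ k)]
  have hyC : y ∈ CK J y := mem_CK.2 ⟨hy, rfl⟩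
  have hφ0 : ∃ k, φ ^ k = 0 := by
    refine ⟨M, ?_⟩
    ext z
    rw [hpow, hM (y * y) (J.mul_mem hy.1 hy.1), zero_mul]
    rfl
  classical
  set N := Nat.find hφ0 with hN
  have hφN : φ ^ N = 0 := Nat.find_spec hφ0
  have hNs : N ≤ s := by
    by_contra hlt
    push Not at hlt
    obtain ⟨m, hm⟩ : ∃ m, N = m + 1 := ⟨N - 1, by omega⟩
    have hne : φ ^ m ≠ 0 := Nat.find_min hφ0 (by omega)
    have h1 := card_ge hp hs φ hφN hne
    rw [hs, ← hm] at h1
    have := (Nat.pow_le_pow_iff_right hp.one_lt).1 h1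
    omega
  have hyy : y ^ (2 * N + 1) = 0 := by
    have h1 := hpow N ⟨y, hyC⟩
    rw [hφN] at h1
    rw [pow_succ, pow_mul, pow_two]
    exact h1.symm
  have hL : LinearMap.mulLeft ℤ y ^ (2 * N + 1) = 0 := by
    rw [LinearMap.pow_mulLeft, hyy]
    ext a; simp
  have hR : LinearMap.mulRight ℤ y ^ (2 * N + 1) = 0 := by
    rw [LinearMap.pow_mulRight, hyy]
    ext a; simp
  have hcomm : Commute (LinearMap.mulLeft ℤ y) (LinearMap.mulRight ℤ y) := by
    ext a
    simp [Module.End.mul_apply, mul_assoc]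
  have hLR : (LinearMap.mulLeft ℤ y - LinearMap.mulRight ℤ y) ^ (4 * N + 1) = 0 := by
    rw [sub_eq_add_neg]
    refine hcomm.neg_right.add_pow_eq_zero_of_add_le_succ_of_pow_eq_zero hL
      (n := 2 * N + 1) ?_ (by omega)
    rw [neg_pow, hR, mul_zero]
  -- restrict to the skew elements
  set ψ : Module.End ℤ (skew J) :=
    (LinearMap.mulLeft ℤ y - LinearMap.mulRight ℤ y).restrict (ad_mem hy) with hψ
  have hψpow : ∀ k (z : skew J), (((ψ ^ k) z : skew J) : A) =
      ((LinearMap.mulLeft ℤ y - LinearMap.mulRight ℤ y) ^ k) (z : A) := by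
    intro k
    induction k with
    | zero => intro z; rfl
    | succ k ih =>
      intro z
      rw [pow_succ', pow_succ', Module.End.mul_apply, Module.End.mul_apply, hψ,
        LinearMap.coe_restrict_apply, ← hψ, ih]
  have hψ0 : ψ ^ (4 * N + 1) = 0 := by
    ext z
    rw [hψpow, hLR]
    rfl
  have h2 := card_le_ker_pow ψ hψ0
  have h3 : Nat.card (LinearMap.ker ψ) ≤ p ^ s := by
    rw [← hs]
    refine Nat.card_le_card_of_injective (fun z : LinearMap.ker ψ => (⟨z.1.1, ?_⟩ : CK J y)) ?_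
    · have hz := z.2
      rw [LinearMap.mem_ker] at hz
      have hz' := congrArg (fun w : skew J => (w : A)) hz
      refine mem_CK.2 ⟨z.1.2, ?_⟩
      have : (LinearMap.mulLeft ℤ y - LinearMap.mulRight ℤ y) z.1.1 = 0 := hz'
      rw [LinearMap.sub_apply, LinearMap.mulLeft_apply, LinearMap.mulRight_apply, sub_eq_zero]
        at this
      exact this
    · intro a b hab
      exact Subtype.ext (Subtype.ext (congrArg (fun z : CK J y => (z : A)) hab))
  have h4 : p ^ n ≤ p ^ (s * (4 * N + 1)) := by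
    rw [← hK, pow_mul]
    exact h2.trans (Nat.pow_le_pow_left h3 _)
  have h5 := (Nat.pow_le_pow_iff_right hp.one_lt).1 h4
  exact h5.trans (Nat.mul_le_mul_left _ (by omega))

end ring

section group

variable {A : Type*} [Ring A] [StarRing A] {J : NonUnitalSubring A} {Q : Type*} [Group Q]

/-- Every centralizer of a unitary group of order `p ^ n` has order at least `p ^ s` with
`n ≤ s (4 s + 1)`. -/
theorem centralizer_bound [Finite J] (hodd : Odd (Nat.card J)) (hnil : ∀ x ∈ J, IsNilpotent x)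
    (hst : ∀ x ∈ J, star x ∈ J) (f : Q →* A) (hf : Function.Injective f)
    (hr : Set.range f = unit J) {p n : ℕ} (hp : p.Prime) (hQ : Nat.card Q = p ^ n) (g : Q) :
    ∃ s, p ^ s ≤ Nat.card (Subgroup.centralizer {g}) ∧ n ≤ s * (4 * s + 1) := by
  obtain ⟨M, hM⟩ := exists_bound hnil
  have hQ0 : Finite Q := Nat.finite_of_card_ne_zero (by rw [hQ]; exact (pow_pos hp.pos n).ne')
  -- the bijection
  have hc : ∀ y : skew J, ∃ q : Q, f q = cay M y.1 := by
    intro y
    have := cay_mem hM y.2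
    rw [← hr] at this
    exact this
  choose c hc using hc
  have hcinj : Function.Injective c := by
    intro y z hyz
    apply Subtype.ext
    refine cay_inj hodd hM y.2.1 z.2.1 ?_
    rw [← hc, ← hc, hyz]
  have hcsurj : Function.Surjective c := by
    intro q
    have h1 : f q ∈ unit J := by rw [← hr]; exact ⟨q, rfl⟩
    obtain ⟨y, hy, hyu⟩ := cay_surj hodd hM hst h1
    refine ⟨⟨y, hy⟩, ?_⟩
    apply hf
    rw [hc, hyu]
  have hK : Nat.card (skew J) = p ^ n := by
    rw [← hQ]
    exact Nat.card_congr (Equiv.ofBijective c ⟨hcinj, hcsurj⟩)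
  obtain ⟨y, rfl⟩ := hcsurj g
  obtain ⟨s, hs, hn⟩ := CK_card hM y.2 hp hK
  refine ⟨s, ?_, hn⟩
  rw [← hs]
  refine Nat.card_le_card_of_injective
    (fun z : CK J y.1 => (⟨c ⟨z.1, (mem_CK.1 z.2).1⟩, ?_⟩ : Subgroup.centralizer {c y})) ?_
  · rw [Subgroup.mem_centralizer_singleton_iff]
    apply hf
    rw [map_mul, map_mul, hc, hc]
    have hcomm : Commute y.1 z.1 := (mem_CK.1 z.2).2
    exact (cay_commute hcomm.symm).eq
  · intro a b hab
    have h1 := congrArg Subtype.val hab
    have h2 := hcinj h1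
    exact Subtype.ext (congrArg (fun w : skew J => (w : A)) h2)

/-- Many classes. -/
theorem class_bound [Finite J] (hodd : Odd (Nat.card J)) (hnil : ∀ x ∈ J, IsNilpotent x)
    (hst : ∀ x ∈ J, star x ∈ J) (f : Q →* A) (hf : Function.Injective f)
    (hr : Set.range f = unit J) {p n : ℕ} (hp : p.Prime) (hQ : Nat.card Q = p ^ n) :
    ∃ s, p ^ s ≤ Nat.card (ConjClasses Q) ∧ n ≤ s * (4 * s + 1) := by
  classical
  have hQ0 : Finite Q := Nat.finite_of_card_ne_zero (by rw [hQ]; exact (pow_pos hp.pos n).ne')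
  have hex : ∃ s, n ≤ s * (4 * s + 1) := ⟨n, by nlinarith [Nat.zero_le n]⟩
  refine ⟨Nat.find hex, ?_, Nat.find_spec hex⟩
  set s := Nat.find hex with hs
  have hc : ∀ g : Q, p ^ s ≤ Nat.card (Subgroup.centralizer {g}) := by
    intro g
    obtain ⟨t, ht, hn⟩ := centralizer_bound hodd hnil hst f hf hr hp hQ g
    exact (Nat.pow_le_pow_right hp.pos (Nat.find_min' hex hn)).trans ht
  have h1 := card_comm_eq_card_conjClasses_mul_card Q
  have h2 : Nat.card { q : Q × Q // Commute q.1 q.2 } =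
      Nat.card (Σ g : Q, Subgroup.centralizer {g}) := by
    refine Nat.card_congr ⟨fun q => ⟨q.1.1, ⟨q.1.2, ?_⟩⟩, fun q => ⟨(q.1, q.2.1), ?_⟩, ?_, ?_⟩
    · rw [Subgroup.mem_centralizer_singleton_iff]
      exact q.2.eq.symm
    · exact (Subgroup.mem_centralizer_singleton_iff.1 q.2.2).symm
    · intro q; rfl
    · intro q; rfl
  have : Fintype Q := Fintype.ofFinite Q
  rw [h2, Nat.card_sigma] at h1
  have h3 : Nat.card Q * p ^ s ≤ ∑ g : Q, Nat.card (Subgroup.centralizer {g}) := by
    calc Nat.card Q * p ^ s = ∑ _g : Q, p ^ s := by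
          rw [Finset.sum_const, Finset.card_univ, smul_eq_mul, Nat.card_eq_fintype_card]
      _ ≤ _ := Finset.sum_le_sum fun g _ => hc g
  rw [h1, mul_comm] at h3
  exact Nat.le_of_mul_le_mul_right h3 Nat.card_pos

end group

end Pool.Agent.H40U
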